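import Pool.Agent.Helper77.LA.Root
import Pool.Agent.Helper77.LA.Fld
import Pool.Agent.Helper43.TZ.SLie

/-!
# Project TZ (MP_0f6f3f_an): the dimension of the root spaces in type `A`

For `x, x'` in `L_(e i - e j)` the operator `(ad x)* (ad x') + (ad x')* (ad x)` is scalar on `L_(e j - e k)` (`TypA.comp`). So the dimension `μ` of the root spaces is `1`, `2` or divisible by `4` (`TypA.dim_comp`).
-/

set_option autoImplicit false
set_option linter.unusedSectionVars false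
set_option linter.style.haveILetI false

open Matrix

namespace Pool.Agent.Helper35.TZ

section Alg

variable {V W U : Type*} [AddCommGroup V] [Module ℝ V] [AddCommGroup W] [Module ℝ W] [AddCommGroup U] [Module ℝ U]
  [FiniteDimensional ℝ V] [FiniteDimensional ℝ W] [FiniteDimensional ℝ U]

/-- Complex structures. -/
theorem two_dvd (J : Module.End ℝ W) (hJ : J * J = -1) : 2 ∣ Module.finrank ℝ W := by
  let f : ℂ →ₐ[ℝ] Module.End ℝ W := Complex.lift ⟨J, hJ⟩
  letI : Module ℂ W := Module.compHom W f.toRingHom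
  haveI : IsScalarTower ℝ ℂ W := by
    refine ⟨fun r z w => ?_⟩
    change f (r • z) w = r • (f z w)
    rw [map_smul, LinearMap.smul_apply]
  have h := Module.finrank_mul_finrank ℝ ℂ W
  rw [Complex.finrank_real_complex] at h
  exact ⟨_, h.symm⟩

/-- Quaternionic structures. -/
theorem four_dvd (I J : Module.End ℝ W) (hI : I * I = -1) (hJ : J * J = -1) (hIJ : I * J + J * I = 0) : 4 ∣ Module.finrank ℝ W := by
  let B : QuaternionAlgebra.Basis (Module.End ℝ W) (-1 : ℝ) 0 (-1) :=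
    { i := I
      j := J
      k := I * J
      i_mul_i := by rw [hI, zero_smul, add_zero, neg_one_smul]
      j_mul_j := by rw [hJ, neg_one_smul]
      i_mul_j := rfl
      j_mul_i := by
        rw [zero_smul, zero_sub]
        exact eq_neg_of_add_eq_zero_right hIJ }
  let f : Quaternion ℝ →ₐ[ℝ] Module.End ℝ W := B.liftHom
  letI : Module (Quaternion ℝ) W := Module.compHom W f.toRingHom
  haveI : IsScalarTower ℝ (Quaternion ℝ) W := by
    refine ⟨fun r z w => ?_⟩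
    change f (r • z) w = r • (f z w)
    rw [map_smul, LinearMap.smul_apply]
  have h := Module.finrank_mul_finrank ℝ (Quaternion ℝ) W
  rw [Quaternion.finrank_eq_four] at h
  exact ⟨_, h.symm⟩

/-- Common zeros of few linear functionals. -/
theorem exists_ker (k : ℕ) (hk : k < Module.finrank ℝ V) (f : Fin k → V →ₗ[ℝ] ℝ) : ∃ x : V, x ≠ 0 ∧ ∀ i, f i x = 0 := by
  have h1 : LinearMap.ker (LinearMap.pi f) ≠ ⊥ := by
    refine LinearMap.ker_ne_bot_of_finrank_lt ?_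
    rw [Module.finrank_fin_fun]
    exact hk
  obtain ⟨x, hx, hx0⟩ := Submodule.exists_mem_ne_zero_of_ne_bot h1
  exact ⟨x, hx0, fun i => congrFun (LinearMap.mem_ker.1 hx) i⟩

/-- **Composition of quadratic forms.** -/
theorem comp_alg (A : V →ₗ[ℝ] W →ₗ[ℝ] U) (B : V →ₗ[ℝ] U →ₗ[ℝ] W) (q : V →ₗ[ℝ] V →ₗ[ℝ] ℝ)
    (hq : ∀ x x' w, B x (A x' w) + B x' (A x w) = q x x' • w) (hpos : ∀ x, x ≠ 0 → 0 < q x x)
    (hd : Module.finrank ℝ W = Module.finrank ℝ U) :
    (2 ≤ Module.finrank ℝ V → 2 ∣ Module.finrank ℝ W) ∧ (3 ≤ Module.finrank ℝ V → 4 ∣ Module.finrank ℝ W) := by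
  -- normalisation
  have hnorm : ∀ x : V, x ≠ 0 → ∃ c : ℝ, c ≠ 0 ∧ q (c • x) (c • x) = 2 := by
    intro x hx
    have h1 := hpos x hx
    refine ⟨Real.sqrt (2 / q x x), (Real.sqrt_pos.2 (by positivity)).ne', ?_⟩
    rw [map_smul, map_smul, LinearMap.smul_apply, smul_eq_mul, smul_eq_mul, ← mul_assoc, Real.mul_self_sqrt (by positivity)]
    field_simp
  have key : ∀ x, q x x = 2 → (∀ w, B x (A x w) = w) ∧ ∀ u, A x (B x u) = u := by
    intro x hx
    have h1 : ∀ w, B x (A x w) = w := by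
      intro w
      have h2 := hq x x w
      rw [hx, ← two_smul ℝ] at h2
      exact smul_right_injective W (two_ne_zero' ℝ) h2
    refine ⟨h1, fun u => ?_⟩
    have h3 : Function.Injective (A x) := fun w w' hw => by rw [← h1 w, hw, h1]
    have h4 : Function.Surjective (A x) := (LinearMap.injective_iff_surjective_of_finrank_eq_finrank hd).1 h3
    obtain ⟨w, rfl⟩ := h4 u
    rw [h1]
  have hJ : ∀ x y, q x x = 2 → q y y = 2 → q x y = 0 → (B x ∘ₗ A y : Module.End ℝ W) * (B x ∘ₗ A y) = -1 := by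
    intro x y hx hy hxy
    obtain ⟨h1, h2⟩ := key x hx
    obtain ⟨h3, h4⟩ := key y hy
    have h5 : ∀ w, B x (A y w) = -B y (A x w) := by
      intro w
      have h6 := hq x y w
      rw [hxy, zero_smul] at h6
      exact eq_neg_of_add_eq_zero_left h6
    ext w
    change B x (A y (B x (A y w))) = -w
    rw [h5 (B x (A y w)), h2, h3]
  constructor
  · intro hV
    obtain ⟨x0, hx0, -⟩ := exists_ker (V := V) 0 (by omega) (fun i => i.elim0)
    obtain ⟨c, hc, hx⟩ := hnorm x0 hx0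
    obtain ⟨y0, hy0, hy1⟩ := exists_ker (V := V) 1 (by omega) (fun _ => q (c • x0))
    obtain ⟨d, hd, hy⟩ := hnorm y0 hy0
    exact two_dvd _ (hJ _ _ hx hy (by rw [map_smul, hy1 0, smul_zero]))
  · intro hV
    obtain ⟨x0, hx0, -⟩ := exists_ker (V := V) 0 (by omega) (fun i => i.elim0)
    obtain ⟨c, hc, hx⟩ := hnorm x0 hx0
    obtain ⟨y0, hy0, hy1⟩ := exists_ker (V := V) 1 (by omega) (fun _ => q (c • x0))
    obtain ⟨d, hd, hy⟩ := hnorm y0 hy0
    obtain ⟨z0, hz0, hz1⟩ := exists_ker (V := V) 2 (by omega) ![q (c • x0), q (d • y0)]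
    obtain ⟨e, he, hz⟩ := hnorm z0 hz0
    have hxy : q (c • x0) (d • y0) = 0 := by rw [map_smul, hy1 0, smul_zero]
    have hxz : q (c • x0) (e • z0) = 0 := by
      have := hz1 0
      rw [Matrix.cons_val_zero] at this
      rw [map_smul, this, smul_zero]
    have hyz : q (d • y0) (e • z0) = 0 := by
      have := hz1 1
      rw [Matrix.cons_val_one, Matrix.cons_val_zero] at this
      rw [map_smul, this, smul_zero]
    obtain ⟨x, hxx⟩ : ∃ x, x = c • x0 := ⟨_, rfl⟩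
    obtain ⟨y, hyy⟩ : ∃ y, y = d • y0 := ⟨_, rfl⟩
    obtain ⟨z, hzz⟩ : ∃ z, z = e • z0 := ⟨_, rfl⟩
    rw [← hxx] at hx hxy hxz
    rw [← hyy] at hy hxy hyz
    rw [← hzz] at hz hxz hyz
    refine four_dvd _ _ (hJ x y hx hy hxy) (hJ x z hx hz hxz) ?_
    obtain ⟨h1, h2⟩ := key x hx
    have h5 : ∀ w, B x (A y w) = -B y (A x w) := by
      intro w
      have h6 := hq x y w
      rw [hxy, zero_smul] at h6
      exact eq_neg_of_add_eq_zero_left h6
    have h6 : ∀ w, B x (A z w) = -B z (A x w) := by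
      intro w
      have h6 := hq x z w
      rw [hxz, zero_smul] at h6
      exact eq_neg_of_add_eq_zero_left h6
    ext w
    change B x (A y (B x (A z w))) + B x (A z (B x (A y w))) = 0
    rw [h5 (B x (A z w)), h6 (B x (A y w)), h2, h2, ← neg_add, hq y z, hyz, zero_smul, neg_zero]

end Alg

section Lie

open Pool.Agent.Helper96.SA Pool.Agent.Helper96.TO Pool.Agent.Helper77.LA
open Pool.Agent.Helper43.TZ (rootSp)

variable {L : Type} [LieRing L] [LieAlgebra ℝ L] {N m : ℕ} {θ : L ≃ₗ⁅ℝ⁆ L} {b : Module.Basis (Fin N) ℝ L}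
  {G : Subgroup (GL (Fin N) ℝ)} {A : Submodule ℝ L} {e : Fin (m + 1) → Module.Dual ℝ A}

/-- `2 e j - e i - e k` is not a root. -/
theorem zero_key (he : TypA A m e) {i j k : Fin (m + 1)} (hij : i ≠ j) (hjk : j ≠ k) {x : L}
    (hx : x ∈ rsp A (-(e i - e j) + (e j - e k))) : x = 0 := by
  have key : ∀ k' l' : Fin (m + 1), e j - e i + (e j - e k) ≠ e k' - e l' := by
    intro k' l' h5
    have h6 := he.four h5 j
    simp only [Pi.single_apply, if_neg hij.symm, if_neg hjk, if_true] at h6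
    by_cases h7 : j = k' <;> by_cases h8 : j = l'
    · rw [if_pos h7, if_pos h8] at h6
      norm_num at h6
    · rw [if_pos h7, if_neg h8] at h6
      norm_num at h6
    · rw [if_neg h7, if_pos h8] at h6
      norm_num at h6
    · rw [if_neg h7, if_neg h8] at h6
      norm_num at h6
  rw [neg_sub] at hx
  exact he.zero_of hx (fun h5 => key 0 0 (by rw [h5, sub_self])) fun k' l' _ => key k' l'

/-- `[θ x, x'] + [θ x', x]` is in `A`. -/
theorem zmem (h : CartanBasis θ b) (hA : MaxFlat θ A) {φ : Module.Dual ℝ A} {x x' : L} (hx : x ∈ rsp A φ) (hx' : x' ∈ rsp A φ) :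
    ⁅θ x, x'⁆ + ⁅θ x', x⁆ ∈ A := by
  have h0 : ∀ y ∈ rsp A (0 : Module.Dual ℝ A), ∀ a ∈ A, ⁅y, a⁆ = 0 := by
    intro y hy a ha
    rw [← lie_skew, hy ⟨a, ha⟩, LinearMap.zero_apply, zero_smul, neg_zero]
  have h1 : ∀ x ∈ rsp A φ, ∀ x' ∈ rsp A φ, ⁅θ x, x'⁆ ∈ rsp A (0 : Module.Dual ℝ A) := by
    intro x hx x' hx'
    have h2 := rsp_lie (theta_rsp h hA hx) hx'
    rwa [neg_add_cancel] at h2
  refine hA.max _ ?_ fun a ha => ?_
  · rw [map_add, LieEquiv.map_lie, LieEquiv.map_lie, h.invol, h.invol, neg_add, lie_skew, lie_skew, add_comm]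
  · rw [add_lie, h0 _ (h1 x hx x' hx') a ha, h0 _ (h1 x' hx' x hx) a ha, add_zero]

theorem TypA.dim_comp (he : TypA A m e) (h : CartanBasis θ b) (hG : IsAdj b G) (hA : MaxFlat θ A) (hm : 2 ≤ m) {i j : Fin (m + 1)} (hij : i ≠ j) :
    Module.finrank ℝ (rsp A (e i - e j)) = 1 ∨ Module.finrank ℝ (rsp A (e i - e j)) = 2 ∨ 4 ∣ Module.finrank ℝ (rsp A (e i - e j)) := by
  have hF : Module.Finite ℝ L := Module.Finite.of_basis b
  obtain ⟨k, hik, hjk⟩ : ∃ k : Fin (m + 1), i ≠ k ∧ j ≠ k := by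
    by_contra hcon
    push Not at hcon
    have h1 : (Finset.univ : Finset (Fin (m + 1))) ⊆ {i, j} := by
      intro t _
      rw [Finset.mem_insert, Finset.mem_singleton]
      by_cases ht : i = t
      · exact Or.inl ht.symm
      · exact Or.inr (hcon t ht).symm
    have h2 := Finset.card_le_card h1
    have h3 := Finset.card_le_two (a := i) (b := j)
    rw [Finset.card_univ, Fintype.card_fin] at h2
    omega
  have m1 : ∀ x ∈ rsp A (e i - e j), ∀ w ∈ rsp A (e j - e k), ⁅x, w⁆ ∈ rsp A (e i - e k) := by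
    intro x hx w hw
    have h1 := rsp_lie hx hw
    rwa [sub_add_sub_cancel] at h1
  have m2 : ∀ x ∈ rsp A (e i - e j), ∀ u ∈ rsp A (e i - e k), -⁅θ x, u⁆ ∈ rsp A (e j - e k) := by
    intro x hx u hu
    have h1 := rsp_lie (theta_rsp h hA hx) hu
    have e1 : -(e i - e j) + (e i - e k) = e j - e k := by abel
    rw [e1] at h1
    exact Submodule.neg_mem _ h1
  let AA : rsp A (e i - e j) →ₗ[ℝ] rsp A (e j - e k) →ₗ[ℝ] rsp A (e i - e k) :=
    LinearMap.mk₂ ℝ (fun x w => ⟨⁅(x : L), (w : L)⁆, m1 x x.2 w w.2⟩)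
      (fun x x' w => Subtype.ext (add_lie (x : L) (x' : L) (w : L))) (fun c x w => Subtype.ext (smul_lie c (x : L) (w : L)))
      (fun x w w' => Subtype.ext (lie_add (x : L) (w : L) (w' : L))) (fun c x w => Subtype.ext (lie_smul c (x : L) (w : L)))
  let BB : rsp A (e i - e j) →ₗ[ℝ] rsp A (e i - e k) →ₗ[ℝ] rsp A (e j - e k) :=
    LinearMap.mk₂ ℝ (fun x u => ⟨-⁅θ (x : L), (u : L)⁆, m2 x x.2 u u.2⟩)
      (fun x x' w => Subtype.ext (by
        change -⁅θ ((x : L) + x'), (w : L)⁆ = -⁅θ (x : L), (w : L)⁆ + -⁅θ (x' : L), (w : L)⁆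
        rw [map_add, add_lie, neg_add]))
      (fun c x w => Subtype.ext (by
        change -⁅θ (c • (x : L)), (w : L)⁆ = c • -⁅θ (x : L), (w : L)⁆
        rw [map_smul, smul_lie, smul_neg]))
      (fun x w w' => Subtype.ext (by
        change -⁅θ (x : L), (w : L) + w'⁆ = -⁅θ (x : L), (w : L)⁆ + -⁅θ (x : L), (w' : L)⁆
        rw [lie_add, neg_add]))
      (fun c x w => Subtype.ext (by
        change -⁅θ (x : L), c • (w : L)⁆ = c • -⁅θ (x : L), (w : L)⁆
        rw [lie_smul, smul_neg]))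
  let zz : rsp A (e i - e j) →ₗ[ℝ] rsp A (e i - e j) →ₗ[ℝ] A :=
    LinearMap.mk₂ ℝ (fun x x' => ⟨⁅θ (x : L), (x' : L)⁆ + ⁅θ (x' : L), (x : L)⁆, zmem h hA x.2 x'.2⟩)
      (fun x x' w => Subtype.ext (by
        change ⁅θ ((x : L) + x'), (w : L)⁆ + ⁅θ (w : L), (x : L) + x'⁆ =
          (⁅θ (x : L), (w : L)⁆ + ⁅θ (w : L), (x : L)⁆) + (⁅θ (x' : L), (w : L)⁆ + ⁅θ (w : L), (x' : L)⁆)
        rw [map_add, add_lie, lie_add]
        abel))
      (fun c x w => Subtype.ext (by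
        change ⁅θ (c • (x : L)), (w : L)⁆ + ⁅θ (w : L), c • (x : L)⁆ = c • (⁅θ (x : L), (w : L)⁆ + ⁅θ (w : L), (x : L)⁆)
        rw [map_smul, smul_lie, lie_smul, smul_add]))
      (fun x w w' => Subtype.ext (by
        change ⁅θ (x : L), (w : L) + w'⁆ + ⁅θ ((w : L) + w'), (x : L)⁆ =
          (⁅θ (x : L), (w : L)⁆ + ⁅θ (w : L), (x : L)⁆) + (⁅θ (x : L), (w' : L)⁆ + ⁅θ (w' : L), (x : L)⁆)
        rw [map_add, add_lie, lie_add]
        abel))
      (fun c x w => Subtype.ext (by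
        change ⁅θ (x : L), c • (w : L)⁆ + ⁅θ (c • (w : L)), (x : L)⁆ = c • (⁅θ (x : L), (w : L)⁆ + ⁅θ (w : L), (x : L)⁆)
        rw [map_smul, smul_lie, lie_smul, smul_add]))
  let q : rsp A (e i - e j) →ₗ[ℝ] rsp A (e i - e j) →ₗ[ℝ] ℝ := zz.compr₂ (-(e j - e k))
  have hqe : ∀ x x' : rsp A (e i - e j), q x x' = -(e j - e k) (zz x x') := fun x x' => rfl
  have hq : ∀ x x' w, BB x (AA x' w) + BB x' (AA x w) = q x x' • w := by
    intro x x' w
    apply Subtype.ext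
    change -⁅θ (x : L), ⁅(x' : L), (w : L)⁆⁆ + -⁅θ (x' : L), ⁅(x : L), (w : L)⁆⁆ = q x x' • (w : L)
    have h1 : ∀ x x' : rsp A (e i - e j), ⁅θ (x : L), ⁅(x' : L), (w : L)⁆⁆ = ⁅⁅θ (x : L), (x' : L)⁆, (w : L)⁆ := by
      intro x x'
      have h2 : ⁅θ (x : L), (w : L)⁆ = 0 := zero_key he hij hjk (rsp_lie (theta_rsp h hA x.2) w.2)
      rw [leibniz_lie, h2, lie_zero, add_zero]
    rw [h1, h1, ← neg_add, ← add_lie, hqe]
    have h3 := w.2 (zz x x')
    change ⁅⁅θ (x : L), (x' : L)⁆ + ⁅θ (x' : L), (x : L)⁆, (w : L)⁆ = _ at h3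
    rw [h3, neg_smul]
  have hd1 := Pool.Agent.Helper77.LA.TypA.dim_eq he h hG hA hm hij hjk
  have hd2 := Pool.Agent.Helper77.LA.TypA.dim_eq he h hG hA hm hjk hik
  obtain ⟨w, hw, hw0⟩ : ∃ w ∈ rsp A (e j - e k), w ≠ 0 := by
    obtain ⟨-, y, hy0, hy⟩ := (he.rts _).2 ⟨j, k, hjk, rfl⟩
    exact ⟨y, hy, hy0⟩
  have hpos : ∀ x, x ≠ 0 → 0 < q x x := by
    intro x hx
    have hx0 : (x : L) ≠ 0 := fun h0 => hx (Subtype.ext h0)
    have h1 := congrArg Subtype.val (hq x x ⟨w, hw⟩)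
    change -⁅θ (x : L), ⁅(x : L), w⁆⁆ + -⁅θ (x : L), ⁅(x : L), w⁆⁆ = q x x • w at h1
    have h2 : ⁅(x : L), w⁆ ≠ 0 := by
      intro h3
      exact hw0 (Pool.Agent.Helper77.LA.TypA.inj2 he h hG hA hik.symm hij hjk.symm x.2 hx0 hw h3)
    have h4 := congrArg b.equivFun h1
    rw [map_add, map_neg, map_smul] at h4
    have h5 : b.equivFun ⁅θ (x : L), ⁅(x : L), w⁆⁆ = -((MM b (LieAlgebra.ad ℝ L (x : L)))ᵀ *ᵥ (b.equivFun ⁅(x : L), w⁆)) := by
      have h6 := TT_transpose_to h (x : L)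
      rw [MM_ad, MM_ad] at h6
      have h7 := MM_vec b (LieAlgebra.ad ℝ L (θ (x : L))) ⁅(x : L), w⁆
      rw [LieAlgebra.ad_apply] at h7
      rw [h6, Matrix.neg_mulVec, h7, neg_neg]
    have h6 : b.equivFun ⁅(x : L), w⁆ = MM b (LieAlgebra.ad ℝ L (x : L)) *ᵥ (b.equivFun w) := by
      rw [MM_vec, LieAlgebra.ad_apply]
    rw [h5, neg_neg] at h4
    have h7 := congrArg (fun v => b.equivFun w ⬝ᵥ v) h4
    simp only [dotProduct_add, dotProduct_smul, smul_eq_mul] at h7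
    have h8 : b.equivFun w ⬝ᵥ ((MM b (LieAlgebra.ad ℝ L (x : L)))ᵀ *ᵥ (b.equivFun ⁅(x : L), w⁆)) =
        b.equivFun ⁅(x : L), w⁆ ⬝ᵥ b.equivFun ⁅(x : L), w⁆ := by
      rw [Matrix.dotProduct_mulVec, Matrix.vecMul_transpose, ← h6]
    rw [h8] at h7
    have hp : ∀ y : L, y ≠ 0 → 0 < b.equivFun y ⬝ᵥ b.equivFun y := by
      intro y hy
      have h9 : b.equivFun y ≠ 0 := fun h0 => hy (b.equivFun.injective (by rw [h0, map_zero]))
      have h10 := Matrix.dotProduct_star_self_pos_iff.2 h9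
      rwa [star_trivial] at h10
    have h9 := hp _ h2
    have h10 := hp _ hw0
    by_contra hc
    have h11 : q x x * (b.equivFun w ⬝ᵥ b.equivFun w) ≤ 0 := mul_nonpos_of_nonpos_of_nonneg (not_lt.1 hc) h10.le
    linarith
  obtain ⟨c1, c2⟩ := comp_alg AA BB q hq hpos hd2
  rw [← hd1] at c1 c2
  have hpos' : 0 < Module.finrank ℝ (rsp A (e i - e j)) := by
    obtain ⟨-, y, hy0, hy⟩ := (he.rts _).2 ⟨i, j, hij, rfl⟩
    have : Nontrivial (rsp A (e i - e j)) := ⟨⟨⟨y, hy⟩, 0, fun h0 => hy0 (congrArg Subtype.val h0)⟩⟩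
    exact Module.finrank_pos
  rcases (by omega : Module.finrank ℝ (rsp A (e i - e j)) = 1 ∨ Module.finrank ℝ (rsp A (e i - e j)) = 2 ∨
    3 ≤ Module.finrank ℝ (rsp A (e i - e j))) with h1 | h1 | h1
  · exact Or.inl h1
  · exact Or.inr (Or.inl h1)
  · exact Or.inr (Or.inr (c2 h1))

/-- **The dimensions of the root spaces in type `A`.** -/
theorem dim_typeA [LieAlgebra.IsSimple ℝ L] (h : CartanBasis θ b) (hG : IsAdj b G) (hA : MaxFlat θ A) (h2 : 2 ≤ Module.finrank ℝ A)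
    (hT : IsTypeA (rootsL A)) {φ : Module.Dual ℝ A} (hφ : φ ∈ rootsL A) :
    Module.finrank ℝ (rootSp A φ) = 1 ∨ Module.finrank ℝ (rootSp A φ) = 2 ∨ 4 ∣ Module.finrank ℝ (rootSp A φ) := by
  obtain ⟨e, he⟩ := exists_typA h hG hA h2 hT
  obtain ⟨i, j, hij, rfl⟩ := (he.rts φ).1 hφ
  exact TypA.dim_comp he h hG hA h2 hij

end Lie

end Pool.Agent.Helper35.TZ
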