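import Pool.Agent.Helper66.BD.Conn
import Pool.Agent.Helper96.TO.Fin
import Pool.Agent.Helper3.Lie

/-!
# Project TZ (MP_0f6f3f_an): the identity component of `Aut(L)` is generated by the `exp(ad x)`

`nhds_ex`: near `1` a closed subgroup `G` of `GL(N, ℝ)` is the image of its Lie algebra (closed subgroup theorem of `Helper3/Lie.lean`, applied to the image of `G` under `g ↦ (g, (g⁻¹)ᵀ)`). `component_le`.
-/

set_option autoImplicit false

open Matrix Topology Filter

namespace Pool.Agent.Helper35.TZ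

open Pool.Agent.Helper96.SA Pool.Agent.Helper96.TO Pool.Agent.Helper66.BD

variable {N : ℕ}

section Nhds

open scoped Matrix.Norms.Operator

/-- `g ↦ (g, (g⁻¹)ᵀ)` -/
def dbl : GL (Fin N) ℝ →* Mat N × Mat N where
  toFun g := ((g : Mat N), (((g⁻¹ : GL (Fin N) ℝ) : Mat N))ᵀ)
  map_one' := by
    rw [inv_one, Units.val_one, transpose_one]
    rfl
  map_mul' g h := by
    rw [_root_.mul_inv_rev, Units.val_mul, Units.val_mul, transpose_mul]
    rfl

theorem dbl_apply (g : GL (Fin N) ℝ) : dbl g = ((g : Mat N), (((g⁻¹ : GL (Fin N) ℝ) : Mat N))ᵀ) := rfl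

theorem isClosedEmbedding_dbl : IsClosedEmbedding (dbl : GL (Fin N) ℝ → Mat N × Mat N) := by
  have h1 : IsEmbedding (dbl : GL (Fin N) ℝ → Mat N × Mat N) := by
    have e : (dbl : GL (Fin N) ℝ → Mat N × Mat N) = (fun p : Mat N × (Mat N)ᵐᵒᵖ => (p.1, (MulOpposite.unop p.2)ᵀ)) ∘ Units.embedProduct (Mat N) := by
      funext g
      rfl
    rw [e]
    let φ : Mat N × (Mat N)ᵐᵒᵖ ≃ₜ Mat N × Mat N :=
      { toFun := fun p => (p.1, (MulOpposite.unop p.2)ᵀ)
        invFun := fun p => (p.1, MulOpposite.op p.2ᵀ)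
        left_inv := fun p => by simp
        right_inv := fun p => by simp
        continuous_toFun := continuous_fst.prodMk (MulOpposite.continuous_unop.comp continuous_snd).matrix_transpose
        continuous_invFun := continuous_fst.prodMk (MulOpposite.continuous_op.comp continuous_snd.matrix_transpose) }
    exact φ.isEmbedding.comp Units.isEmbedding_embedProduct
  refine ⟨h1, ?_⟩
  have e : Set.range (dbl : GL (Fin N) ℝ → Mat N × Mat N) = {p | p.1 * p.2ᵀ = 1 ∧ p.2ᵀ * p.1 = 1} := by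
    ext p
    constructor
    · rintro ⟨g, rfl⟩
      rw [dbl_apply]
      refine ⟨?_, ?_⟩
      · show (g : Mat N) * ((((g⁻¹ : GL (Fin N) ℝ) : Mat N))ᵀ)ᵀ = 1
        rw [transpose_transpose]
        exact g.mul_inv
      · show ((((g⁻¹ : GL (Fin N) ℝ) : Mat N))ᵀ)ᵀ * (g : Mat N) = 1
        rw [transpose_transpose]
        exact g.inv_mul
    · rintro ⟨h1, h2⟩
      refine ⟨⟨p.1, p.2ᵀ, h1, h2⟩, ?_⟩
      rw [dbl_apply]
      show (p.1, (p.2ᵀ)ᵀ) = p
      rw [transpose_transpose]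
  rw [e]
  refine IsClosed.inter (isClosed_eq ?_ continuous_const) (isClosed_eq ?_ continuous_const)
  · exact continuous_fst.mul continuous_snd.matrix_transpose
  · exact continuous_snd.matrix_transpose.mul continuous_fst

/-- Near `1` a closed group is the image of its Lie algebra. -/
theorem nhds_ex {G : Subgroup (GL (Fin N) ℝ)} (hG : IsClosed (G : Set (GL (Fin N) ℝ))) :
    ∃ U ∈ 𝓝 (1 : GL (Fin N) ℝ), ∀ g ∈ G, g ∈ U → ∃ X ∈ lie G, ex X = g := by
  let S : Pool.Agent.Helper3.Lie.ClosedGp (Mat N × Mat N) :=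
    { K := G.toSubmonoid.map (dbl : GL (Fin N) ℝ →* Mat N × Mat N)
      closed := isClosedEmbedding_dbl.isClosedMap _ hG
      inv := by
        rintro _ ⟨g, hg, rfl⟩
        exact ⟨dbl g⁻¹, ⟨g⁻¹, G.inv_mem hg, rfl⟩, by rw [← map_mul, mul_inv_cancel, map_one]⟩ }
  obtain ⟨W, hW, h⟩ := Pool.Agent.Helper3.Lie.closed_subgroup S
  have hc : Continuous (dbl : GL (Fin N) ℝ → Mat N × Mat N) := isClosedEmbedding_dbl.continuous
  refine ⟨dbl ⁻¹' W, hc.continuousAt.preimage_mem_nhds (by rw [map_one]; exact hW), fun g hg hgU => ?_⟩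
  obtain ⟨p, hp, hpg⟩ := h (dbl g) ⟨g, hg, rfl⟩ hgU
  refine ⟨p.1, fun t => ?_, ?_⟩
  · obtain ⟨g', hg', e⟩ := hp t
    refine ⟨g', hg', ?_⟩
    have e1 := congrArg Prod.fst e
    rw [Prod.fst_exp] at e1
    exact e1
  · apply Units.ext
    have e1 := congrArg Prod.fst hpg
    rw [Prod.fst_exp] at e1
    exact e1

end Nhds

variable {L : Type} [LieRing L] [LieAlgebra ℝ L] {θ : L ≃ₗ⁅ℝ⁆ L}

/-- The identity component of `Aut(L)`. -/
def autC (b : Module.Basis (Fin N) ℝ L) : Subgroup (GL (Fin N) ℝ) :=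
  (Subgroup.connectedComponentOfOne (autG b)).map (autG b).subtype

/-- The identity component is generated by the `exp(ad x)`. -/
theorem component_le {b : Module.Basis (Fin N) ℝ L} (h : CartanBasis θ b) {g : GL (Fin N) ℝ} (hg : g ∈ autC b) :
    g ∈ Subgroup.closure (Set.range fun x : L => ex (LinearMap.toMatrix b b (LieAlgebra.ad ℝ L x))) := by
  obtain ⟨U, hU, hUe⟩ := nhds_ex (isClosed_autG b)
  let H : Subgroup (autG b) := (Subgroup.closure (Set.range fun x : L => ex (LinearMap.toMatrix b b (LieAlgebra.ad ℝ L x)))).comap (autG b).subtype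
  have hH : IsOpen (H : Set (autG b)) := by
    refine Subgroup.isOpen_of_mem_nhds H (g := 1) ?_
    have h1 : (Subtype.val : autG b → GL (Fin N) ℝ) ⁻¹' U ∈ 𝓝 (1 : autG b) := continuous_subtype_val.continuousAt.preimage_mem_nhds hU
    refine mem_of_superset h1 fun k hk => ?_
    obtain ⟨X, hX, e⟩ := hUe k.1 k.2 hk
    obtain ⟨x, rfl⟩ := TT_surj_to h hX
    show (k : GL (Fin N) ℝ) ∈ Subgroup.closure _
    rw [← e]
    exact Subgroup.subset_closure ⟨x, rfl⟩
  have hcl : IsClopen (H : Set (autG b)) := ⟨H.isClosed_of_isOpen hH, hH⟩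
  obtain ⟨k, hk, rfl⟩ := hg
  exact hcl.connectedComponent_subset H.one_mem hk

end Pool.Agent.Helper35.TZ
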