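import Pool.Agent.Helper35.TZ.Fin1
import Pool.Agent.Helper35.TZ.Comp
import Pool.Agent.Helper35.TZ.Conn
import Pool.Agent.Helper43.TZ.HSrc
import Pool.Agent.Helper43.TZ.SSl
import Pool.Agent.Helper42.TZ.C.SlR
import Pool.Agent.Helper55.TZ.AdRep2
import Pool.Agent.Helper77.TZ2.SlC
import Pool.Agent.Helper77.TZ4.SlH

/-!
# Project TZ (MP_0f6f3f_an): the final theorems

`L` simple of real rank `r ≥ 2`, `Γ` a lattice of the identity component `autC b` of `Aut(L)`, `Λ` a lattice of `PSL(n, 𝕜)`, `L(Γ) = L(Λ)`. Then `n = r + 1`, and `L` is isomorphic to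
`sl(n, 𝕜)`, `𝕜 = ℝ, ℂ, ℍ`.
-/

set_option autoImplicit false
set_option linter.unusedSectionVars false

open Filter Topology MeasureTheory Matrix

namespace Pool.Agent.Helper35.TZ

open Pool.Agent.Helper84.NI Pool.Agent.Helper90.RK Pool.Agent.Helper66.RKS Pool.Agent.Helper9.Lin Pool.Agent.Helper9.Fra
open Pool.Agent.Helper96.HN (PSLH SLH rankGE_PSLH)
open Pool.Agent.Helper96.SA Pool.Agent.Helper96.TO
open Pool.Agent.Helper43.TA (emb_both type_isoR type_isoC)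
open Pool.Agent.Helper43.TH (type_isoH)
open Pool.Agent.Helper43.TZ (rootSp hasSrc_typeA rootSp_pos sl_of_typeA)
open Pool.Agent.Helper78.BI (exists_emb_iso)
open Pool.Agent.Helper42.TZ (HasSrc slR slR_equiv)
open Pool.Agent.Helper66.BD (isAdj_component icc_adj)
open Pool.Agent.Helper77.TZ2 (sl_of_typeA2)
open Pool.Agent.Helper77.TZ4 (slH sl_of_typeA4)

variable {L : Type} [LieRing L] [LieAlgebra ℝ L] {N : ℕ} {θ : L ≃ₗ⁅ℝ⁆ L} {b : Module.Basis (Fin N) ℝ L} {A : Submodule ℝ L}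

theorem isAdj_autC (b : Module.Basis (Fin N) ℝ L) : IsAdj b (autC b) := isAdj_component b

theorem autC_sub (h : CartanBasis θ b) : (autC b : Set (GL (Fin N) ℝ)) ⊆
    closure (Subgroup.closure (Set.range fun x : L => ex (LinearMap.toMatrix b b (LieAlgebra.ad ℝ L x))) : Set (GL (Fin N) ℝ)) :=
  fun _ hg => subset_closure (component_le h hg)

/-- The facts about the lattices of `autC b`. -/
theorem icc_autC [LieAlgebra.IsSimple ℝ L] (h : CartanBasis θ b) (hA : MaxFlat θ A) (h2 : 2 ≤ Module.finrank ℝ A) {Γ : Subgroup (autC b)}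
    (hL : Pool.Agent.Helper96.FR.Lattice Γ) : IsICC Γ := by
  have hG := isAdj_autC b
  have hr := Pool.Agent.Helper96.TO.finrank_eq h hG hA
  exact icc_adj h hG (by rw [← realRank_of_aut h hG, ← hr]; omega) hL

theorem lcs_autC (b : Module.Basis (Fin N) ℝ L) : LocallyCompactSpace (autC b) ∧ SecondCountableTopology (autC b) ∧ T2Space (autC b) :=
  Pool.Agent.Helper96.SA.instances (isAdj_autC b).closed

/-- Discrete subgroups of the adjoint group of `sl(n, 𝕜)`. -/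
theorem rep_sl (𝕜 : Type) [RCLike 𝕜] {n : ℕ} (hn : 2 ≤ n) (f : L ≃ₗ⁅ℝ⁆ slR n 𝕜) {G : Subgroup (GL (Fin N) ℝ)} (hG : IsAdj b G)
    (hc : (G : Set (GL (Fin N) ℝ)) ⊆ closure (Subgroup.closure (Set.range fun x : L => ex (LinearMap.toMatrix b b (LieAlgebra.ad ℝ L x))) : Set (GL (Fin N) ℝ)))
    (Γ : Subgroup G) (hΓ : DiscreteTopology Γ) (φ : 𝕜 →+* ℂ) (hφ : ∀ x, ‖φ x‖ = ‖x‖) :
    ∃ ρ : PRep Γ n, ∀ g, ∃ M : Matrix (Fin n) (Fin n) 𝕜, ρ.ph.ι g = M.map φ := by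
  obtain ⟨ρ, hρ⟩ := Pool.Agent.Helper55.TZ.rep_slR φ hφ hn f b hG.closed (fun g hg => hc hg) Γ hΓ
  exact ⟨ρ, fun g => hρ g⟩

/-- the dimension of the root spaces -/
theorem exists_mu [LieAlgebra.IsSimple ℝ L] (h : CartanBasis θ b) (hA : MaxFlat θ A) (h2 : 2 ≤ Module.finrank ℝ A)
    (hT : IsTypeA (rootsL A)) : ∃ μ : ℕ, (μ = 1 ∨ μ = 2 ∨ 4 ∣ μ) ∧ 0 < μ ∧ (∀ φ ∈ rootsL A, Module.finrank ℝ (rootSp A φ) = μ) ∧
      HasSrc (autC b) (Module.finrank ℝ A - 1) (μ * (Module.finrank ℝ A * (Module.finrank ℝ A - 1))) := by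
  have hG := isAdj_autC b
  obtain ⟨e, he⟩ := Pool.Agent.Helper77.LA.exists_typA h hG hA h2 hT
  have h01 : (0 : Fin (Module.finrank ℝ A + 1)) ≠ Fin.last _ := by
    intro h0
    have := congrArg Fin.val h0
    simp at this
    omega
  have hroot : e 0 - e (Fin.last _) ∈ rootsL A := (he.rts _).2 ⟨0, Fin.last _, h01, rfl⟩
  refine ⟨Module.finrank ℝ (rootSp A (e 0 - e (Fin.last _))), dim_typeA h hG hA h2 hT hroot, rootSp_pos b hroot, fun φ hφ => ?_,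
    hasSrc_typeA h hG (autC_sub h) hA h2 hT hroot⟩
  obtain ⟨i, j, hij, rfl⟩ := (he.rts φ).1 hφ
  exact Pool.Agent.Helper77.LA.TypA.dim_eq he h hG hA h2 hij h01

theorem final_R [LieAlgebra.IsSimple ℝ L] (h : CartanBasis θ b) (hA : MaxFlat θ A) (h2 : 2 ≤ Module.finrank ℝ A) {Γ : Subgroup (autC b)}
    (hL : Pool.Agent.Helper96.FR.Lattice Γ) {n : ℕ} {Λ : Subgroup (ProjectiveSpecialLinearGroup (Fin n) ℝ)}
    (hΛ : Pool.Agent.Helper96.FR.Lattice Λ) (hiso : IsoL Γ Λ) :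
    n = Module.finrank ℝ A + 1 ∧ Nonempty (L ≃ₗ⁅ℝ⁆ slR n ℝ) := by
  have hG := isAdj_autC b
  obtain ⟨i1, i2, i3⟩ := lcs_autC b
  obtain ⟨hT, hn⟩ := type_isoR h hG hA h2 hL hΛ hiso
  obtain ⟨μ, hμ, hμ0, hd, hs⟩ := exists_mu h hA h2 hT
  obtain ⟨r, hr⟩ : ∃ r, Module.finrank ℝ A = r + 2 := ⟨Module.finrank ℝ A - 2, by omega⟩
  have e1 : Module.finrank ℝ A - 1 = n - 2 := by omega
  have h3 := iso_R (n := n) (by omega) (e1 ▸ hs) hL (icc_autC h hA h2 hL) hΛ.1 hiso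
  have hn' : n = r + 3 := by omega
  have h4 : μ = 1 := by
    rw [hn', hr] at h3
    have e2 : r + 3 - 1 = r + 2 := rfl
    have e3 : r + 3 - 2 = r + 1 := rfl
    rw [e2, e3] at h3
    have h5 : μ * ((r + 2) * (r + 1)) + 1 ≤ (r + 2) ^ 2 := by
      have : 0 < (r + 2) ^ 2 := by positivity
      omega
    by_contra hc
    have h6 : 2 ≤ μ := by omega
    have h7 : 2 * ((r + 2) * (r + 1)) ≤ μ * ((r + 2) * (r + 1)) := Nat.mul_le_mul_right _ h6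
    nlinarith
  obtain ⟨f⟩ := sl_of_typeA h hA h2 hT (h4 ▸ hd)
  refine ⟨hn, ?_⟩
  rw [hn]
  exact ⟨f.trans (slR_equiv _).symm⟩

/-- An isomorphism with `sl(n, 𝕜)` is excluded. -/
theorem not_sl [LieAlgebra.IsSimple ℝ L] (h : CartanBasis θ b) {Γ : Subgroup (autC b)}
    (hL : Pool.Agent.Helper96.FR.Lattice Γ) {n p : ℕ} {G2 : Type} [Group G2] [TopologicalSpace G2] [IsTopologicalGroup G2] (k2 : KG G2 n p)
    {Λ : Subgroup G2} (hΛ : Pool.Agent.Helper96.FR.Lattice Λ) (hiso : IsoL Γ Λ) (hn : 3 ≤ n) :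
    (1 < p → ¬ Nonempty (L ≃ₗ⁅ℝ⁆ slR n ℝ)) ∧ (2 < p → p = 4 → ¬ Nonempty (L ≃ₗ⁅ℝ⁆ slR n ℂ)) := by
  have hG := isAdj_autC b
  obtain ⟨j1, j2, j3⟩ := And.intro k2.lc (And.intro k2.sc k2.t2)
  have hiso' : IsoL Λ Γ := by
    obtain ⟨e⟩ := hiso
    exact ⟨e.symm⟩
  obtain ⟨E, hE, hicc⟩ := exists_emb_iso (k2.icc Λ hΛ) hiso'
  obtain ⟨k, rfl⟩ : ∃ k, n = k + 3 := ⟨n - 3, by omega⟩
  have e1 : k + 3 - 1 = k + 2 := rfl
  have e2 : k + 3 - 2 = k + 1 := rfl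
  have hsrc := k2.src
  refine ⟨fun hp hc => ?_, fun hp hp4 hc => ?_⟩
  · obtain ⟨f⟩ := hc
    obtain ⟨ρ, hρ⟩ := rep_sl ℝ (by omega) f hG (autC_sub h) Γ hL.1 Complex.ofRealHom (fun x => Complex.norm_real x)
    refine src_R (P := ρ.ph) hn hsrc hΛ (fun g => ?_) ?_ E hE hicc
    · obtain ⟨M, hM⟩ := hρ g
      rw [hM]
      ext i j
      rw [cjM_apply, map_apply]
      exact Complex.conj_ofReal _
    · rw [e1, e2]
      have h5 : 2 * ((k + 2) * (k + 1)) ≤ p * ((k + 2) * (k + 1)) := Nat.mul_le_mul_right _ hp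
      have h6 : (k + 2) ^ 2 < 2 * ((k + 2) * (k + 1)) + 1 := by nlinarith
      have h7 : 0 < (k + 2) ^ 2 := by positivity
      omega
  · obtain ⟨f⟩ := hc
    obtain ⟨ρ, -⟩ := rep_sl ℂ (by omega) f hG (autC_sub h) Γ hL.1 (RingHom.id ℂ) (fun x => rfl)
    refine src_C hn hsrc hΛ ρ.ph ?_ E hE hicc
    rw [e1, e2, hp4]
    have h6 : 2 * (k + 2) ^ 2 < 4 * ((k + 2) * (k + 1)) + 1 := by nlinarith
    have h7 : 0 < (k + 2) ^ 2 := by positivity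
    omega

theorem final_C [LieAlgebra.IsSimple ℝ L] (h : CartanBasis θ b) (hA : MaxFlat θ A) (h2 : 2 ≤ Module.finrank ℝ A) {Γ : Subgroup (autC b)}
    (hL : Pool.Agent.Helper96.FR.Lattice Γ) {n : ℕ} {Λ : Subgroup (ProjectiveSpecialLinearGroup (Fin n) ℂ)}
    (hΛ : Pool.Agent.Helper96.FR.Lattice Λ) (hiso : IsoL Γ Λ) :
    n = Module.finrank ℝ A + 1 ∧ Nonempty (L ≃ₗ⁅ℝ⁆ slR n ℂ) := by
  have hG := isAdj_autC b
  obtain ⟨i1, i2, i3⟩ := lcs_autC b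
  obtain ⟨hT, hn⟩ := type_isoC h hG hA h2 hL hΛ hiso
  obtain ⟨μ, hμ, hμ0, hd, hs⟩ := exists_mu h hA h2 hT
  obtain ⟨r, hr⟩ : ∃ r, Module.finrank ℝ A = r + 2 := ⟨Module.finrank ℝ A - 2, by omega⟩
  have e1 : Module.finrank ℝ A - 1 = n - 2 := by omega
  have h3 := iso_C (n := n) (by omega) (e1 ▸ hs) hL (icc_autC h hA h2 hL) hΛ.1 hiso
  have hn' : n = r + 3 := by omega
  have h4 : μ = 1 ∨ μ = 2 := by
    rw [hn', hr] at h3
    have e2 : r + 3 - 1 = r + 2 := rfl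
    have e3 : r + 3 - 2 = r + 1 := rfl
    rw [e2, e3] at h3
    have h5 : μ * ((r + 2) * (r + 1)) + 1 ≤ 2 * (r + 2) ^ 2 := by
      have : 0 < 2 * (r + 2) ^ 2 := by positivity
      omega
    rcases hμ with h6 | h6 | h6
    · exact Or.inl h6
    · exact Or.inr h6
    · exfalso
      have h7 : 4 ≤ μ := Nat.le_of_dvd hμ0 h6
      have h8 : 4 * ((r + 2) * (r + 1)) ≤ μ * ((r + 2) * (r + 1)) := Nat.mul_le_mul_right _ h7
      nlinarith
  refine ⟨hn, ?_⟩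
  rcases h4 with h4 | h4
  · exfalso
    obtain ⟨f⟩ := sl_of_typeA h hA h2 hT (h4 ▸ hd)
    rw [← hn] at f
    exact (not_sl h hL (kgC (n := n) (by omega)) hΛ hiso (by omega)).1 (by norm_num) ⟨f.trans (slR_equiv _).symm⟩
  · rw [hn]
    exact sl_of_typeA2 h hA h2 hT (h4 ▸ hd)

theorem final_H [LieAlgebra.IsSimple ℝ L] (h : CartanBasis θ b) (hA : MaxFlat θ A) (h2 : 2 ≤ Module.finrank ℝ A) {Γ : Subgroup (autC b)}
    (hL : Pool.Agent.Helper96.FR.Lattice Γ) {n : ℕ} {Λ : Subgroup (PSLH n)}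
    (hΛ : Pool.Agent.Helper96.FR.Lattice Λ) (hiso : IsoL Γ Λ) :
    n = Module.finrank ℝ A + 1 ∧ Nonempty (L ≃ₗ⁅ℝ⁆ slH n) := by
  have hG := isAdj_autC b
  obtain ⟨i1, i2, i3⟩ := lcs_autC b
  obtain ⟨hT, hn⟩ := type_isoH h hG hA h2 hL hΛ hiso
  obtain ⟨μ, hμ, hμ0, hd, hs⟩ := exists_mu h hA h2 hT
  obtain ⟨r, hr⟩ : ∃ r, Module.finrank ℝ A = r + 2 := ⟨Module.finrank ℝ A - 2, by omega⟩
  have e1 : Module.finrank ℝ A - 1 = n - 2 := by omega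
  have h3 := iso_H (n := n) (by omega) (e1 ▸ hs) hL (icc_autC h hA h2 hL) hΛ.1 hiso
  have hn' : n = r + 3 := by omega
  have hk := not_sl h hL (kgH (n := n) (by omega)) hΛ hiso (by omega)
  have h4 : μ = 4 := by
    rw [hn', hr] at h3
    have e2 : r + 3 - 1 = r + 2 := rfl
    have e3 : r + 3 - 2 = r + 1 := rfl
    rw [e2, e3] at h3
    have h5 : μ * ((r + 2) * (r + 1)) + 1 ≤ 4 * (r + 2) ^ 2 := by
      have : 0 < 4 * (r + 2) ^ 2 := by positivity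
      omega
    rcases hμ with h6 | h6 | h6
    · exfalso
      obtain ⟨f⟩ := sl_of_typeA h hA h2 hT (h6 ▸ hd)
      rw [← hn] at f
      exact hk.1 (by norm_num) ⟨f.trans (slR_equiv _).symm⟩
    · exfalso
      obtain ⟨f⟩ := sl_of_typeA2 h hA h2 hT (h6 ▸ hd)
      rw [← hn] at f
      exact hk.2 (by norm_num) rfl ⟨f⟩
    · obtain ⟨c, rfl⟩ := h6
      have h7 : c < 2 := by
        by_contra hc
        have h8 : 8 * ((r + 2) * (r + 1)) ≤ 4 * c * ((r + 2) * (r + 1)) := Nat.mul_le_mul_right _ (by omega)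
        nlinarith
      omega
  refine ⟨hn, ?_⟩
  rw [hn]
  exact sl_of_typeA4 h hA h2 hT (h4 ▸ hd)

end Pool.Agent.Helper35.TZ
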