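import Pool.Agent.Helper35.TZ.Tgt
import Pool.Agent.Helper43.TH.Final
import Pool.Agent.Helper78.BI.Tgt

/-!
# Project TZ (MP_0f6f3f_an): isomorphisms with the algebras of lattices of `PSL(n, 𝕜)`

`iso_R`, `iso_C`, `iso_H`: upper bounds for `d`, if `G1` has the structure `HasSrc G1 (n - 2) d` and `L(Γ1)` is isomorphic to `L(Λ)`, `Λ` a discrete subgroup of `PSL(n, ℝ)`, `PSL(n, ℂ)`, `PSL(n, ℍ)`.
-/

set_option autoImplicit false

open Filter Topology MeasureTheory Matrix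

namespace Pool.Agent.Helper35.TZ

open Pool.Agent.Helper84.NI Pool.Agent.Helper90.RK Pool.Agent.Helper66.RKS Pool.Agent.Helper9.Lin Pool.Agent.Helper9.Fra
open Pool.Agent.Helper96.HN (PSLH)
open Pool.Agent.Helper78.BI (exists_emb_iso rep_R rep_C rep_H)
open Pool.Agent.Helper42.TZ (HasSrc)

variable {G1 : Type} [Group G1] [TopologicalSpace G1] [IsTopologicalGroup G1] [LocallyCompactSpace G1]
  [SecondCountableTopology G1] [T2Space G1] {Γ1 : Subgroup G1}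

theorem iso_R {n d : ℕ} (hn : 3 ≤ n) (hs : HasSrc G1 (n - 2) d) (hL : Pool.Agent.Helper96.FR.Lattice Γ1) (hicc : IsICC Γ1)
    {Λ : Subgroup (ProjectiveSpecialLinearGroup (Fin n) ℝ)} (hΛ : DiscreteTopology Λ) (h : IsoL Γ1 Λ) : d ≤ (n - 1) ^ 2 - 1 := by
  by_contra hc
  obtain ⟨E, hE, hicc2⟩ := exists_emb_iso hicc h
  obtain ⟨ρ, hρ⟩ := rep_R Λ hΛ
  exact src_R hn hs hL hρ (not_le.1 hc) E hE hicc2

theorem iso_C {n d : ℕ} (hn : 3 ≤ n) (hs : HasSrc G1 (n - 2) d) (hL : Pool.Agent.Helper96.FR.Lattice Γ1) (hicc : IsICC Γ1)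
    {Λ : Subgroup (ProjectiveSpecialLinearGroup (Fin n) ℂ)} (hΛ : DiscreteTopology Λ) (h : IsoL Γ1 Λ) : d ≤ 2 * (n - 1) ^ 2 - 1 := by
  by_contra hc
  obtain ⟨E, hE, hicc2⟩ := exists_emb_iso hicc h
  obtain ⟨ρ⟩ := rep_C Λ hΛ
  exact src_C hn hs hL ρ.ph (not_le.1 hc) E hE hicc2

theorem iso_H {n d : ℕ} (hn : 3 ≤ n) (hs : HasSrc G1 (n - 2) d) (hL : Pool.Agent.Helper96.FR.Lattice Γ1) (hicc : IsICC Γ1)
    {Λ : Subgroup (PSLH n)} (hΛ : DiscreteTopology Λ) (h : IsoL Γ1 Λ) : d ≤ 4 * (n - 1) ^ 2 - 1 := by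
  by_contra hc
  obtain ⟨E, hE, hicc2⟩ := exists_emb_iso hicc h
  obtain ⟨ρ, hρ⟩ := rep_H Λ hΛ
  exact src_H hn hs hL ρ.ph hρ (not_le.1 hc) E hE hicc2

end Pool.Agent.Helper35.TZ
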