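import Pool.Agent.Helper42.TZ.C.Fin
import Pool.Agent.Helper42.TZ.C.FinH
import Pool.Agent.Helper66.BD.Rec
import Pool.Agent.Helper66.RK.StmtDef

/-!
# Project TZ (MP_0f6f3f_an): the lattices of `PSL(n, 𝕜)` are icc

`CS.icc`: Poincaré recurrence (`rec_zero`) for the entries with index `(i, last)` and `(last, i)` of the conjugates of an element with finite conjugacy class in the lattice.
-/

set_option autoImplicit false
set_option linter.unusedSectionVars false

open Matrix Topology Filter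

namespace Pool.Agent.Helper35.TZ

open Pool.Agent.Helper42.TZ Pool.Agent.Helper66.RKS

variable {K : Type} [NormedDivisionRing K] [NormedAlgebra ℝ K] [FiniteDimensional ℝ K] {m : ℕ}
variable {S S' : Type} [Group S] [TopologicalSpace S] [Group S'] [TopologicalSpace S'] (C : CS K m S S')

theorem entD (t : ℝ) (x : S) (p q : Fin (m + 1)) : C.Q.φ (C.D t * x * (C.D t)⁻¹) p q =
    algebraMap ℝ K (wt m t p) * C.Q.φ x p q * algebraMap ℝ K (wt m (-t) q) := by
  have e1 : C.Q.φ (C.D t) = diagonal fun i => algebraMap ℝ K (wt m t i) := C.hD t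
  have e2 : C.Q.φ (C.D (-t)) = diagonal fun i => algebraMap ℝ K (wt m (-t) i) := C.hD (-t)
  rw [map_mul, map_mul, ← C.D_neg, e1, e2, mul_diagonal, diagonal_mul]

/-- entries of the conjugates of elements with finite classes -/
theorem ent0 [IsTopologicalGroup S] [SecondCountableTopology S] (hm : 1 ≤ m) {Γ : Subgroup (S ⧸ Subgroup.center S)}
    (hL : Pool.Agent.Helper96.FR.Lattice Γ) (γ : Γ) (hfin : (Set.range fun g : Γ => g * γ * g⁻¹).Finite) (t : ℝ) (p q : Fin (m + 1))
    (hlt : 1 < wt m t p * wt m (-t) q) {x : S} {y : S ⧸ Subgroup.center S} (hx : (x : S ⧸ Subgroup.center S) = y * γ * y⁻¹) :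
    C.Q.φ x p q = 0 := by
  classical
  obtain ⟨h', hc', hh⟩ := exists_lift (S := S) (h := fun s => ‖C.Q.φ s p q‖)
    (((C.Q.emb.continuous).matrix_elem p q).norm) (fun s z hz => C.Q.norm_center hm p q s hz)
  let Cf : Finset (S ⧸ Subgroup.center S) := hfin.toFinset.image Subtype.val
  have hC : ∀ c : S ⧸ Subgroup.center S, c ∈ Cf ↔ ∃ g : Γ, (g : S ⧸ Subgroup.center S) * γ * (g : S ⧸ Subgroup.center S)⁻¹ = c := by
    intro c
    constructor
    · intro hc
      obtain ⟨c', hc', rfl⟩ := Finset.mem_image.1 hc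
      obtain ⟨g, hg⟩ := hfin.mem_toFinset.1 hc'
      refine ⟨g, ?_⟩
      rw [← hg]
      rfl
    · rintro ⟨g, rfl⟩
      exact Finset.mem_image.2 ⟨g * γ * g⁻¹, hfin.mem_toFinset.2 ⟨g, rfl⟩, rfl⟩
  let χ : S ⧸ Subgroup.center S → ℝ := fun g => ∑ c ∈ Cf, h' (g * c * g⁻¹)
  have hχ : ∀ g, χ g = ∑ c ∈ Cf, h' (g * c * g⁻¹) := fun _ => rfl
  have hn : ∀ c, 0 ≤ h' c := by
    intro c
    obtain ⟨s, rfl⟩ := QuotientGroup.mk_surjective c
    have := hh s
    change 0 ≤ h' (s : S ⧸ Subgroup.center S)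
    rw [this]
    exact norm_nonneg _
  have hcont : Continuous χ := by
    refine continuous_finsetSum _ fun c _ => hc'.comp ?_
    fun_prop
  have hnn : ∀ g, 0 ≤ χ g := fun g => Finset.sum_nonneg fun c _ => hn _
  have hinv : ∀ g, ∀ δ ∈ Γ, χ (g * δ) = χ g := by
    intro g δ hδ
    rw [hχ, hχ]
    have hδ' : ∀ c ∈ Cf, δ * c * δ⁻¹ ∈ Cf := by
      intro c hc
      obtain ⟨g, rfl⟩ := (hC c).1 hc
      refine (hC _).2 ⟨⟨δ, hδ⟩ * g, ?_⟩
      change δ * (g : S ⧸ Subgroup.center S) * γ * (δ * (g : S ⧸ Subgroup.center S))⁻¹ = δ * ((g : S ⧸ Subgroup.center S) * γ * (g : S ⧸ Subgroup.center S)⁻¹) * δ⁻¹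
      group
    have hδ'' : ∀ c ∈ Cf, δ⁻¹ * c * δ ∈ Cf := by
      intro c hc
      obtain ⟨g, rfl⟩ := (hC c).1 hc
      refine (hC _).2 ⟨⟨δ, hδ⟩⁻¹ * g, ?_⟩
      change δ⁻¹ * (g : S ⧸ Subgroup.center S) * γ * (δ⁻¹ * (g : S ⧸ Subgroup.center S))⁻¹ = δ⁻¹ * ((g : S ⧸ Subgroup.center S) * γ * (g : S ⧸ Subgroup.center S)⁻¹) * δ
      group
    refine Finset.sum_nbij' (fun c => δ * c * δ⁻¹) (fun c => δ⁻¹ * c * δ) hδ' hδ'' ?_ ?_ ?_
    · intro c _
      group
    · intro c _
      group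
    · intro c _
      have e : g * δ * c * (g * δ)⁻¹ = g * (δ * c * δ⁻¹) * g⁻¹ := by group
      rw [e]
  have hb : ∀ g, (wt m t p * wt m (-t) q) * χ g ≤ χ ((C.D t : S ⧸ Subgroup.center S) * g) := by
    intro g
    refine le_of_eq ?_
    rw [hχ, hχ, Finset.mul_sum]
    refine Finset.sum_congr rfl fun c _ => ?_
    have e : (C.D t : S ⧸ Subgroup.center S) * g * c * ((C.D t : S ⧸ Subgroup.center S) * g)⁻¹ =
        (C.D t : S ⧸ Subgroup.center S) * (g * c * g⁻¹) * (C.D t : S ⧸ Subgroup.center S)⁻¹ := by group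
    rw [e]
    obtain ⟨s, hs⟩ := QuotientGroup.mk_surjective (g * c * g⁻¹)
    rw [← hs]
    have e2 : (C.D t : S ⧸ Subgroup.center S) * (s : S ⧸ Subgroup.center S) * (C.D t : S ⧸ Subgroup.center S)⁻¹ =
        ((C.D t * s * (C.D t)⁻¹ : S) : S ⧸ Subgroup.center S) := rfl
    change _ * h' (s : S ⧸ Subgroup.center S) = h' ((C.D t : S ⧸ Subgroup.center S) * (s : S ⧸ Subgroup.center S) * (C.D t : S ⧸ Subgroup.center S)⁻¹)
    rw [e2, hh, hh, entD, norm_mul, norm_mul, norm_algebraMap', norm_algebraMap', Real.norm_of_nonneg (by unfold wt; positivity),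
      Real.norm_of_nonneg (by unfold wt; positivity)]
    ring
  have h1 : χ y = 0 := Pool.Agent.Helper66.BD.rec_zero hL hcont hnn hinv (C.D t : S ⧸ Subgroup.center S) hlt hb y
  have h2 := (Finset.sum_eq_zero_iff_of_nonneg (fun c _ => hn _)).1 h1 (γ : S ⧸ Subgroup.center S)
    ((hC _).2 ⟨1, by simp⟩)
  rw [← hx, hh] at h2
  exact norm_eq_zero.1 h2

include C in
theorem icc_CS [IsTopologicalGroup S] [SecondCountableTopology S] (hm : 1 ≤ m) {Γ : Subgroup (S ⧸ Subgroup.center S)}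
    (hL : Pool.Agent.Helper96.FR.Lattice Γ) : IsICC Γ := by
  intro γ hγ hfin
  have hfin' : (Set.range fun g : Γ => g * γ * g⁻¹).Finite := hfin
  obtain ⟨x, hx⟩ : ∃ x : S, (x : S ⧸ Subgroup.center S) = γ := QuotientGroup.mk_surjective (γ : S ⧸ Subgroup.center S)
  have hm0 : (0 : ℝ) < m := by exact_mod_cast (by omega : 0 < m)
  have key : ∀ (z y : S), z = y * x * y⁻¹ → (∀ i : Fin m, C.Q.φ z i.castSucc (Fin.last m) = 0) ∧ ∀ i : Fin m, C.Q.φ z (Fin.last m) i.castSucc = 0 := by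
    intro z y hz
    have hz' : (z : S ⧸ Subgroup.center S) = (y : S ⧸ Subgroup.center S) * γ * (y : S ⧸ Subgroup.center S)⁻¹ := by
      rw [hz, ← hx]
      rfl
    refine ⟨fun i => ?_, fun i => ?_⟩
    · refine ent0 C hm hL γ hfin' 1 _ _ ?_ hz'
      rw [wt_last, wt_castSucc, ← Real.exp_add]
      rw [Real.one_lt_exp_iff]
      linarith
    · refine ent0 C hm hL γ hfin' (-1) _ _ ?_ hz'
      rw [wt_last, wt_castSucc, ← Real.exp_add]
      rw [Real.one_lt_exp_iff]
      linarith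
  obtain ⟨k1, k2⟩ := key x 1 (by group)
  obtain ⟨d, hd⟩ : ∃ d, d = C.Q.φ x (Fin.last m) (Fin.last m) := ⟨_, rfl⟩
  -- conjugation by transvections
  have hv : ∀ v : Fin (m + 1) → K, v (Fin.last m) = 0 → C.Q.φ x *ᵥ v = rs v d := by
    intro v hvl
    obtain ⟨g, hg⟩ := C.Q.tv v (Pi.single (Fin.last m) 1) (by rw [single_one_dotProduct, hvl])
    obtain ⟨a1, -⟩ := key (g * x * g⁻¹) g rfl
    -- `g x = z g`
    have e1 : C.Q.φ (g * x * g⁻¹) * C.Q.φ g = C.Q.φ g * C.Q.φ x := by
      rw [← map_mul, ← map_mul]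
      congr 1
      group
    funext i
    induction i using Fin.lastCases with
    | last =>
      unfold rs
      rw [hvl, zero_mul]
      show ∑ j, C.Q.φ x (Fin.last m) j * v j = 0
      refine Finset.sum_eq_zero fun j _ => ?_
      induction j using Fin.lastCases with
      | last => rw [hvl, mul_zero]
      | cast j => rw [k2, zero_mul]
    | cast i =>
      obtain ⟨_, a2⟩ := key (g * x * g⁻¹) g rfl
      have hz : ∀ p q, C.Q.φ (g * x * g⁻¹) p q + C.Q.φ (g * x * g⁻¹) p ⬝ᵥ v * (Pi.single (Fin.last m) 1 : Fin (m + 1) → K) q =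
          C.Q.φ x p q + v p * C.Q.φ x (Fin.last m) q := by
        intro p q
        have e2 := congrFun (congrFun e1 p) q
        rw [hg, Matrix.mul_add, Matrix.add_mul, Matrix.mul_one, Matrix.one_mul, mul_vecMulVec, vecMulVec_mul, Matrix.add_apply,
          Matrix.add_apply, vecMulVec_apply, vecMulVec_apply, single_one_vecMul] at e2
        exact e2
      -- the entry `(i, last)`
      have e3 := hz i.castSucc (Fin.last m)
      rw [a1 i, k1 i, zero_add, zero_add, Pi.single_eq_same, mul_one, ← hd] at e3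
      have e4 : C.Q.φ (g * x * g⁻¹) i.castSucc ⬝ᵥ v = C.Q.φ x i.castSucc ⬝ᵥ v := by
        refine Finset.sum_congr rfl fun j _ => ?_
        induction j using Fin.lastCases with
        | last => rw [hvl, mul_zero, mul_zero]
        | cast j =>
          have e5 := hz i.castSucc j.castSucc
          have e6 : (Pi.single (Fin.last m) 1 : Fin (m + 1) → K) j.castSucc = 0 := Pi.single_eq_of_ne (Fin.castSucc_lt_last j).ne _
          rw [e6, mul_zero, add_zero, k2, mul_zero, add_zero] at e5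
          rw [e5]
      rw [e4] at e3
      exact e3
  have hdc : ∀ a : K, a * d = d * a := by
    intro a
    have hi : ((⟨0, by omega⟩ : Fin m).castSucc : Fin (m + 1)) ≠ Fin.last m := (Fin.castSucc_lt_last _).ne
    have h1 := congrFun (hv (Pi.single (⟨0, by omega⟩ : Fin m).castSucc a) (Pi.single_eq_of_ne hi.symm _)) (⟨0, by omega⟩ : Fin m).castSucc
    have h2 := congrFun (hv (Pi.single (⟨0, by omega⟩ : Fin m).castSucc 1) (Pi.single_eq_of_ne hi.symm _)) (⟨0, by omega⟩ : Fin m).castSucc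
    unfold rs at h1 h2
    rw [mulVec_single] at h1
    rw [mulVec_single_one] at h2
    simp only [Pi.single_eq_same, Pi.smul_apply, MulOpposite.smul_eq_mul_unop, MulOpposite.unop_op, one_mul] at h1 h2
    have h3 : C.Q.φ x (⟨0, by omega⟩ : Fin m).castSucc (⟨0, by omega⟩ : Fin m).castSucc = d := h2
    have h4 : C.Q.φ x (⟨0, by omega⟩ : Fin m).castSucc (⟨0, by omega⟩ : Fin m).castSucc * a = a * d := h1
    rw [← h4, h3]
  have hxd : C.Q.φ x = diagonal fun _ => d := by
    refine Matrix.ext fun p q => ?_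
    induction q using Fin.lastCases with
    | last =>
      induction p using Fin.lastCases with
      | last => rw [diagonal_apply_eq, hd]
      | cast p => rw [k1, diagonal_apply_ne _ (Fin.castSucc_lt_last p).ne]
    | cast q =>
      have h1 := congrFun (hv (Pi.single q.castSucc 1) (Pi.single_eq_of_ne (Fin.castSucc_lt_last q).ne' _)) p
      rw [mulVec_single_one] at h1
      unfold rs at h1
      change C.Q.φ x p q.castSucc = _ at h1
      rw [h1, diagonal_apply]
      by_cases h : p = q.castSucc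
      · rw [if_pos h, h, Pi.single_eq_same, one_mul]
      · rw [if_neg h, Pi.single_eq_of_ne h, zero_mul]
  have hcen : x ∈ Subgroup.center S := by
    rw [Subgroup.mem_center_iff]
    intro g
    apply C.Q.inj
    rw [map_mul, map_mul, hxd]
    refine Matrix.ext fun p q => ?_
    rw [mul_diagonal, diagonal_mul, hdc]
  have h1 : (x : S ⧸ Subgroup.center S) = 1 := (QuotientGroup.eq_one_iff x).2 hcen
  exact hγ (Subtype.ext (by rw [← hx, h1]; rfl))

/-- Lattices of `PSL(n, 𝕜)` are icc. -/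
theorem icc_PSL (𝕜 : Type) [RCLike 𝕜] {n : ℕ} (hn : 2 ≤ n) {Γ : Subgroup (ProjectiveSpecialLinearGroup (Fin n) 𝕜)}
    (hL : Pool.Agent.Helper96.FR.Lattice Γ) : IsICC Γ := by
  obtain ⟨m, rfl⟩ : ∃ m, n = m + 1 := ⟨n - 1, by omega⟩
  have : SecondCountableTopology (SpecialLinearGroup (Fin (m + 1)) 𝕜) := inferInstance
  exact icc_CS (csF 𝕜 m) (by omega) hL

theorem icc_PSLH {n : ℕ} (hn : 2 ≤ n) {Γ : Subgroup (Pool.Agent.Helper96.HN.PSLH n)}
    (hL : Pool.Agent.Helper96.FR.Lattice Γ) : IsICC Γ := by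
  obtain ⟨m, rfl⟩ : ∃ m, n = m + 1 := ⟨n - 1, by omega⟩
  have : SecondCountableTopology (Pool.Agent.Helper96.HN.SLH (m + 1)) := inferInstance
  exact icc_CS (csH m (by omega)) (by omega) hL

end Pool.Agent.Helper35.TZ
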