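import Pool.Agent.Helper35.TZ.Fin0
import Pool.Agent.Helper35.TZ.IccP

/-!
# Project TZ (MP_0f6f3f_an): lattices of `PSL(n, 𝕜)` for different `𝕜`

`KG G n p`: the facts used about `G = PSL(n, 𝕜)`, `p` the dimension of `𝕜`. `KG.main`: an isomorphism `L(Γ1) = L(Γ2)` of the algebras of lattices of `PSL(n1, 𝕜1)`, `PSL(n2, 𝕜2)`, `n1, n2 ≥ 3`, gives `n1 = n2` and `𝕜1 = 𝕜2`.
-/

set_option autoImplicit false
set_option linter.unusedSectionVars false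

open Filter Topology MeasureTheory Matrix

namespace Pool.Agent.Helper35.TZ

open Pool.Agent.Helper84.NI Pool.Agent.Helper90.RK Pool.Agent.Helper66.RKS Pool.Agent.Helper9.Lin Pool.Agent.Helper9.Fra
open Pool.Agent.Helper96.HN (PSLH SLH rankGE_PSLH)
open Pool.Agent.Helper96.FR (rankGE_PSL RankGE)
open Pool.Agent.Helper55.FR (full_rank_emb escAll)
open Pool.Agent.Helper43.TA (emb_both)
open Pool.Agent.Helper78.BI (exists_emb_iso rep_R rep_C rep_H)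
open Pool.Agent.Helper42.TZ (HasSrc hasSrc_PSL hasSrc_PSLH)
open Pool.Agent.Helper84.SPQ (Hq)

/-- The facts used about `PSL(n, 𝕜)`, `p` the dimension of `𝕜`. -/
structure KG (G : Type) [Group G] [TopologicalSpace G] [IsTopologicalGroup G] (n p : ℕ) : Prop where
  lc : LocallyCompactSpace G
  sc : SecondCountableTopology G
  t2 : T2Space G
  icc : ∀ Γ : Subgroup G, Pool.Agent.Helper96.FR.Lattice Γ → IsICC Γ
  ge : RankGE G (n - 1)
  le : ∀ Γ : Subgroup G, DiscreteTopology Γ → RankLE Γ (n - 1)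
  src : HasSrc G (n - 2) (p * ((n - 1) * (n - 2)))
  tgt : ∀ {G1 : Type} [Group G1] [TopologicalSpace G1] [IsTopologicalGroup G1] [LocallyCompactSpace G1]
    [SecondCountableTopology G1] [T2Space G1] {Γ1 : Subgroup G1} {d : ℕ}, HasSrc G1 (n - 2) d → Pool.Agent.Helper96.FR.Lattice Γ1 →
      IsICC Γ1 → ∀ Γ : Subgroup G, DiscreteTopology Γ → IsoL Γ1 Γ → d ≤ p * (n - 1) ^ 2 - 1

theorem kgPSL (𝕜 : Type) [RCLike 𝕜] {n p : ℕ} (hn : 3 ≤ n) (hp : Module.finrank ℝ 𝕜 = p)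
    (hle : ∀ Γ : Subgroup (ProjectiveSpecialLinearGroup (Fin n) 𝕜), DiscreteTopology Γ → Nonempty (PRep Γ n))
    (htgt : ∀ {G1 : Type} [Group G1] [TopologicalSpace G1] [IsTopologicalGroup G1] [LocallyCompactSpace G1]
      [SecondCountableTopology G1] [T2Space G1] {Γ1 : Subgroup G1} {d : ℕ}, HasSrc G1 (n - 2) d → Pool.Agent.Helper96.FR.Lattice Γ1 →
        IsICC Γ1 → ∀ Γ : Subgroup (ProjectiveSpecialLinearGroup (Fin n) 𝕜), DiscreteTopology Γ → IsoL Γ1 Γ → d ≤ p * (n - 1) ^ 2 - 1) :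
    KG (ProjectiveSpecialLinearGroup (Fin n) 𝕜) n p := by
  obtain ⟨m, rfl⟩ : ∃ m, n = m + 1 := ⟨n - 1, by omega⟩
  have hT2 : T2Space (SpecialLinearGroup (Fin (m + 1)) 𝕜 ⧸ Subgroup.center (SpecialLinearGroup (Fin (m + 1)) 𝕜)) := by
    have : IsClosed (Subgroup.center (SpecialLinearGroup (Fin (m + 1)) 𝕜) : Set (SpecialLinearGroup (Fin (m + 1)) 𝕜)) :=
      Pool.Agent.Helper96.FR.isCompact_center.isClosed
    have h3 : T3Space (SpecialLinearGroup (Fin (m + 1)) 𝕜 ⧸ Subgroup.center (SpecialLinearGroup (Fin (m + 1)) 𝕜)) :=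
      @QuotientGroup.instT3Space _ _ _ _ _ _ this
    infer_instance
  have hLC : LocallyCompactSpace (SpecialLinearGroup (Fin (m + 1)) 𝕜 ⧸ Subgroup.center (SpecialLinearGroup (Fin (m + 1)) 𝕜)) := inferInstance
  have hSC : SecondCountableTopology (SpecialLinearGroup (Fin (m + 1)) 𝕜 ⧸ Subgroup.center (SpecialLinearGroup (Fin (m + 1)) 𝕜)) := inferInstance
  refine ⟨hLC, hSC, hT2, fun Γ hL => icc_PSL 𝕜 (by omega) hL, rankGE_PSL, fun Γ h => ?_, ?_, htgt⟩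
  · obtain ⟨ρ⟩ := hle Γ h
    exact ⟨m + 1, ρ, (cartan_iff ρ).2 (Pool.Agent.Helper66.RK.kak_general ρ.ph)⟩
  · have h := hasSrc_PSL 𝕜 (m := m) (by omega)
    rw [hp] at h
    exact h

theorem kgR {n : ℕ} (hn : 3 ≤ n) : KG (ProjectiveSpecialLinearGroup (Fin n) ℝ) n 1 :=
  kgPSL ℝ hn (Module.finrank_self ℝ) (fun Γ h => by
    obtain ⟨ρ, -⟩ := rep_R Γ h
    exact ⟨ρ⟩) fun hs hL hicc Γ h hi => by
    rw [one_mul]
    exact iso_R hn hs hL hicc h hi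

theorem kgC {n : ℕ} (hn : 3 ≤ n) : KG (ProjectiveSpecialLinearGroup (Fin n) ℂ) n 2 :=
  kgPSL ℂ hn Complex.finrank_real_complex (rep_C) fun hs hL hicc Γ h hi => iso_C hn hs hL hicc h hi

theorem kgH {n : ℕ} (hn : 3 ≤ n) : KG (PSLH n) n 4 := by
  obtain ⟨m, rfl⟩ : ∃ m, n = m + 1 := ⟨n - 1, by omega⟩
  refine ⟨inferInstance, inferInstance, inferInstance, fun Γ hL => icc_PSLH (by omega) hL, rankGE_PSLH m,
    fun Γ h => Pool.Agent.Helper43.TH.rankLE_H Γ h, ?_, fun hs hL hicc Γ h hi => iso_H hn hs hL hicc h hi⟩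
  have h := hasSrc_PSLH (m := m) (by omega)
  have e : Module.finrank ℝ Hq = 4 := Quaternion.finrank_eq_four
  rw [e] at h
  exact h

/-- **Lattices of `PSL(n, 𝕜)`.** -/
theorem KG.main {G1 G2 : Type} [Group G1] [TopologicalSpace G1] [IsTopologicalGroup G1] [Group G2] [TopologicalSpace G2] [IsTopologicalGroup G2]
    {n1 n2 p1 p2 : ℕ} (h1 : KG G1 n1 p1) (h2 : KG G2 n2 p2) (hn1 : 3 ≤ n1) (hn2 : 3 ≤ n2) (hp1 : p1 = 1 ∨ p1 = 2 ∨ p1 = 4)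
    (hp2 : p2 = 1 ∨ p2 = 2 ∨ p2 = 4) {Γ1 : Subgroup G1} {Γ2 : Subgroup G2} (hL1 : Pool.Agent.Helper96.FR.Lattice Γ1)
    (hL2 : Pool.Agent.Helper96.FR.Lattice Γ2) (h : IsoL Γ1 Γ2) : n1 = n2 ∧ p1 = p2 := by
  obtain ⟨i1, i2, i3⟩ := And.intro h1.lc (And.intro h1.sc h1.t2)
  obtain ⟨j1, j2, j3⟩ := And.intro h2.lc (And.intro h2.sc h2.t2)
  obtain ⟨⟨E⟩, ⟨E'⟩⟩ := emb_both (h1.icc Γ1 hL1) h
  have r1 := full_rank_emb escAll hL1 h1.ge (h2.le Γ2 hL2.1) E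
  have r2 := full_rank_emb escAll hL2 h2.ge (h1.le Γ1 hL1.1) E'
  have hn : n1 = n2 := by omega
  subst hn
  have h' : IsoL Γ2 Γ1 := by
    obtain ⟨e⟩ := h
    exact ⟨e.symm⟩
  have a1 := h2.tgt h1.src hL1 (h1.icc Γ1 hL1) Γ2 hL2.1 h
  have a2 := h1.tgt h2.src hL2 (h2.icc Γ2 hL2) Γ1 hL1.1 h'
  refine ⟨rfl, ?_⟩
  obtain ⟨k, rfl⟩ : ∃ k, n1 = k + 3 := ⟨n1 - 3, by omega⟩
  have e1 : k + 3 - 1 = k + 2 := rfl
  have e2 : k + 3 - 2 = k + 1 := rfl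
  rw [e1, e2] at a1 a2
  have b1 : p1 * ((k + 2) * (k + 1)) + 1 ≤ p2 * (k + 2) ^ 2 := by
    have : 1 ≤ p2 * (k + 2) ^ 2 := Nat.mul_pos (by omega) (by positivity)
    omega
  have b2 : p2 * ((k + 2) * (k + 1)) + 1 ≤ p1 * (k + 2) ^ 2 := by
    have : 1 ≤ p1 * (k + 2) ^ 2 := Nat.mul_pos (by omega) (by positivity)
    omega
  rcases hp1 with rfl | rfl | rfl <;> rcases hp2 with rfl | rfl | rfl <;> first | rfl | (exfalso; nlinarith)

end Pool.Agent.Helper35.TZ
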