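import Pool.Agent.Helper55.TZ.Asm
import Pool.Agent.Helper55.TZ.HU
import Pool.Agent.Helper9.QH.Q4
import Pool.Agent.Helper9.FP.Fr3
import Pool.Agent.Helper43.TH.Top2
import Pool.Agent.Helper78.BI.Icc
import Pool.Agent.Helper96.HN.Pair
import Pool.Agent.Helper42.TZ.C.Src

/-!
# Project TZ (MP_0f6f3f_an): the targets `PSL(n, 𝕜)`

`HasSrc G1 r d`: the group `G1` has the structure needed on the side of the source. `src_R`, `src_C`, `src_H`: `L(Γ1) ≠ L(Γ2)` for a lattice `Γ1` of `G1`, an icc group `Γ2` with a proper projective representation in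
`GL(n, ℝ)`, `GL(n, ℂ)`, `GL(n, ℍ)`, if `d` is larger than the dimension of the matrices of size `n - 1` and norm of the determinant one.
-/

set_option autoImplicit false

open Filter Topology MeasureTheory

namespace Pool.Agent.Helper35.TZ

open Pool.Agent.Helper84 Pool.Agent.Helper84.GN Pool.Agent.Helper84.NI Pool.Agent.Helper84.GVN Pool.Agent.Helper90.RK Pool.Agent.Helper9
open Pool.Agent.Helper96.RK Pool.Agent.Helper66.FR Pool.Agent.Helper84.FR Pool.Agent.Helper55.FR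
open Pool.Agent.Helper78.BM (FullE)
open Pool.Agent.Helper35.FP Pool.Agent.Helper55.FP Pool.Agent.Helper78.BI Pool.Agent.Helper9.QH Pool.Agent.Helper43.TH
open Pool.Agent.Helper42.TZ (HasSrc)
open Pool.Agent.Helper9.Fra Pool.Agent.Helper9.Lin Pool.Agent.Helper55.TZ

variable {G1 : Type} [Group G1] [TopologicalSpace G1] [IsTopologicalGroup G1] [LocallyCompactSpace G1]
  [SecondCountableTopology G1] [T2Space G1] {Γ1 : Subgroup G1} {Γ2 : Type} [Group Γ2]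

/-- The last gap is trivial. -/
theorem triv_last {N : ℕ} {P : PH Γ2 N} (S : Sv P) {l : Fin N} (hl : (l : ℕ) + 1 = N) : Triv S {l} := by
  intro γ i hi
  rw [Finset.mem_singleton] at hi
  subst hi
  unfold lg gp
  rw [dif_neg (by omega), Real.log_one]

/-- Blocks with complement of size one. -/
theorem src_one {N d : ℕ} (hN : 3 ≤ N) (hs : HasSrc G1 (N - 2) d) (hL : Pool.Agent.Helper96.FR.Lattice Γ1) {P : PH Γ2 N}
    {q : Fin N} (hq : (q : ℕ) + 2 = N) {s : Sg N q} {S : Sv P} (F2 : Fra s S) (hd : Module.finrank ℝ s.low.fx - 1 < d)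
    (E : Emb Γ1 Γ2) (hE : FullE E) (hicc : Pool.Agent.Helper66.RKS.IsICC Γ2) : False := by
  obtain ⟨F, par, f, hT, ⟨D1⟩, ⟨D2⟩, hpi, hfF, hfc, hfp⟩ := hs
  obtain ⟨l, hl⟩ : ∃ l : Fin N, (l : ℕ) + 1 = N := ⟨⟨N - 1, by omega⟩, by simp only; omega⟩
  obtain ⟨p, hp⟩ : ∃ p : Fin N, (p : ℕ) = 0 := ⟨⟨0, by omega⟩, rfl⟩
  refine tz_main hL hT D1 D2 hpi hfF hfc hfp F2 (hU_one s hq) (T0 := {l}) (q := q) (p := p) (triv_last S hl) ?_ ?_ ?_ ?_ ?_ ?_
    (sepA_line S hq) ?_ ?_ hd E hE hicc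
  · rw [Finset.card_singleton]
    omega
  · rw [Finset.mem_singleton]
    intro h
    rw [h] at hq
    omega
  · intro j hj
    rw [Finset.mem_singleton] at hj
    rw [Fin.le_def]
    by_contra hc
    exact hj (Fin.ext (by have := j.2; omega))
  · rw [Finset.mem_singleton]
    intro h
    rw [h] at hp
    omega
  · intro j _
    rw [Fin.le_def]
    omega
  · omega
  · omega
  · omega

/-- Real matrices. -/
theorem src_R {n d : ℕ} (hn : 3 ≤ n) (hs : HasSrc G1 (n - 2) d) (hL : Pool.Agent.Helper96.FR.Lattice Γ1) {P : PH Γ2 n}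
    (hP : ∀ g, cjM (P.ι g) = P.ι g) (hd : (n - 1) ^ 2 - 1 < d) (E : Emb Γ1 Γ2) (hE : FullE E)
    (hicc : Pool.Agent.Helper66.RKS.IsICC Γ2) : False := by
  obtain ⟨q, hq⟩ : ∃ q : Fin n, (q : ℕ) + 2 = n := ⟨⟨n - 2, by omega⟩, by simp only; omega⟩
  obtain ⟨S, h1, h2, h3⟩ := exists_sv_R P q hP
  have F2 : Fra (sgR n q) S := ⟨hP, h1, h3⟩
  refine src_one hn hs hL hq F2 ?_ E hE hicc
  rw [finrank_low_R]
  have e : (q : ℕ) + 1 = n - 1 := by omega
  rw [e]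
  exact hd

/-- Complex matrices. -/
theorem src_C {n d : ℕ} (hn : 3 ≤ n) (hs : HasSrc G1 (n - 2) d) (hL : Pool.Agent.Helper96.FR.Lattice Γ1) (P : PH Γ2 n)
    (hd : 2 * (n - 1) ^ 2 - 1 < d) (E : Emb Γ1 Γ2) (hE : FullE E)
    (hicc : Pool.Agent.Helper66.RKS.IsICC Γ2) : False := by
  obtain ⟨q, hq⟩ : ∃ q : Fin n, (q : ℕ) + 2 = n := ⟨⟨n - 2, by omega⟩, by simp only; omega⟩
  obtain ⟨S, h1, h2, h3⟩ := exists_sv_C P q
  have F2 : Fra (sgC n q) S := ⟨fun _ => rfl, h1, h3⟩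
  refine src_one hn hs hL hq F2 ?_ E hE hicc
  rw [finrank_low_C]
  have e : (q : ℕ) + 1 = n - 1 := by omega
  rw [e]
  exact hd

/-- Quaternionic matrices. -/
theorem src_H {n d : ℕ} (hn : 3 ≤ n) (hs : HasSrc G1 (n - 2) d) (hL : Pool.Agent.Helper96.FR.Lattice Γ1) (P : PH Γ2 (2 * n))
    (hP : ∀ g, JH (2 * n) * cjM (P.ι g) * (JH (2 * n)).conjTranspose = P.ι g)
    (hd : 4 * (n - 1) ^ 2 - 1 < d) (E : Emb Γ1 Γ2) (hE : FullE E)
    (hicc : Pool.Agent.Helper66.RKS.IsICC Γ2) : False := by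
  have hN : Even (2 * n) := ⟨n, by omega⟩
  obtain ⟨q, hq⟩ : ∃ q : Fin (2 * n), (q : ℕ) + 3 = 2 * n := ⟨⟨2 * n - 3, by omega⟩, by simp only; omega⟩
  have hqo : Odd (q : ℕ) := ⟨n - 2, by omega⟩
  obtain ⟨p, hp⟩ : ∃ p : Fin (2 * n), (p : ℕ) = 1 := ⟨⟨1, by omega⟩, rfl⟩
  have hP' : ∀ g, (sgH (2 * n) q hN hqo).σ (P.ι g) = P.ι g := hP
  obtain ⟨S, h1, h2, h3⟩ := exists_sv_H P q hN hqo hP'
  have F2 : Fra (sgH (2 * n) q hN hqo) S := ⟨hP', h1, h3⟩
  have hQ : Quat P (JH (2 * n)) := ⟨isU_JH hN, JH_transpose hN, quat_of P q hN hqo hP'⟩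
  have hTr : ∀ S : Sv P, Triv S (T0H (2 * n)) := fun S => Pool.Agent.Helper96.HN.triv_quat S hQ
  obtain ⟨F, par, f, hT, ⟨D1⟩, ⟨D2⟩, hpi, hfF, hfc, hfp⟩ := hs
  refine tz_main hL hT D1 D2 hpi hfF hfc hfp F2 (hU_H hN hqo hq) (T0 := T0H (2 * n)) (q := q) (p := p) (hTr S) ?_ ?_ ?_ ?_ ?_ ?_
    (sepA_quat S hQ hq) ?_ ?_ ?_ E hE hicc
  · rw [card_T0H (by omega)]
    omega
  · rw [T0H, Finset.mem_filter]
    intro h
    omega
  · intro j hj
    rw [T0H, Finset.mem_filter] at hj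
    rw [Fin.le_def]
    by_contra hc
    refine hj ⟨Finset.mem_univ _, ?_⟩
    have := j.2
    omega
  · rw [T0H, Finset.mem_filter]
    intro h
    omega
  · intro j hj
    rw [T0H, Finset.mem_filter] at hj
    rw [Fin.le_def]
    by_contra hc
    refine hj ⟨Finset.mem_univ _, ?_⟩
    omega
  · omega
  · omega
  · omega
  · rw [finrank_low_H]
    have e : (q : ℕ) + 1 = 2 * (n - 1) := by omega
    rw [e]
    have e2 : (2 * (n - 1)) ^ 2 = 4 * (n - 1) ^ 2 := by ring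
    rw [e2]
    exact hd

end Pool.Agent.Helper35.TZ
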